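import Pool.Agent.H73.PHS.Stmts

set_option autoImplicit false

open Set Filter Topology MeasureTheory Metric

namespace Pool.PHS

theorem det_thm (h1 : SMOStmt) : DETStmt := by
  intro n F U hU hF
  have hD := (h1 n (Cn n) F U hU hF).1
  have he : ∀ i j : Fin n,
      DifferentiableOn ℂ (fun z => (fderiv ℂ F z (Pi.single j 1)) i) U := by
    intro i j
    have h2 := hD.clm_apply (differentiableOn_const (c := (Pi.single j 1 : Cn n)))
    exact (differentiableOn_pi.1 h2) i
  have hj : jac F = fun z => ∑ σ : Equiv.Perm (Fin n),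
      ((Equiv.Perm.sign σ : ℤ) : ℂ) * ∏ i, (fderiv ℂ F z (Pi.single i 1)) (σ i) := by
    funext z
    unfold jac
    rw [ContinuousLinearMap.det, ← LinearMap.det_toMatrix', Matrix.det_apply']
    refine Finset.sum_congr rfl fun σ _ => ?_
    congr 1
  rw [hj]
  refine DifferentiableOn.fun_sum fun σ _ => ?_
  refine (differentiableOn_const _).mul ?_
  intro z hz
  exact (HasFDerivWithinAt.finsetProd (u := Finset.univ)
    (fun i _ => (he (σ i) i z hz).hasFDerivWithinAt)).differentiableWithinAt

end Pool.PHS
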